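import Mathlib

set_option autoImplicit false

namespace Pool.Agent.P.MP_012ca0_co

open Finset

/-- A set of arcs with no loop, no 2-cycle, and all in- and out-degrees at most one. -/
structure IsLin {V : Type} (F : Finset (V × V)) : Prop where
  no2 : ∀ p ∈ F, (p.2, p.1) ∉ F
  outu : ∀ p ∈ F, ∀ q ∈ F, p.1 = q.1 → p = q
  inu : ∀ p ∈ F, ∀ q ∈ F, p.2 = q.2 → p = q

theorem IsLin.ne {V : Type} {F : Finset (V × V)} (h : IsLin F) {p : V × V} (hp : p ∈ F) :
    p.1 ≠ p.2 := by
  intro he
  apply h.no2 p hp
  have : (p.2, p.1) = p := by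
    ext
    · exact he.symm
    · exact he
  rwa [this]

theorem IsLin.subset {V : Type} {F G : Finset (V × V)} (h : IsLin F) (hG : G ⊆ F) : IsLin G :=
  ⟨fun p hp h2 => h.no2 p (hG hp) (hG h2), fun p hp q hq => h.outu p (hG hp) q (hG hq),
    fun p hp q hq => h.inu p (hG hp) q (hG hq)⟩

/-- `T` restricted to `B` is a regular tournament. -/
structure IsRegOn {V : Type} [DecidableEq V] (B : Finset V) (T : V → V → Bool) : Prop where
  anti : ∀ x ∈ B, ∀ y ∈ B, x ≠ y → T x y = !T y x
  reg : ∀ x ∈ B, ((B.erase x).filter (fun y => T x y = true)).card =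
    ((B.erase x).filter (fun y => T y x = true)).card

/-- There is a finite family of regular tournaments on `B` in which every linear arc set `F`
survives with probability at least `2 ^ (-|F|)`. -/
def GoodOn {V : Type} [DecidableEq V] (B : Finset V) : Prop :=
  ∃ (Ω : Type) (_ : Fintype Ω) (T : Ω → V → V → Bool), Nonempty Ω ∧
    (∀ ω, IsRegOn B (T ω)) ∧
    ∀ F : Finset (V × V), IsLin F → (∀ p ∈ F, p.1 ∈ B ∧ p.2 ∈ B) →
      Fintype.card Ω ≤ 2 ^ F.card * (univ.filter (fun ω => ∀ p ∈ F, T ω p.1 p.2 = true)).card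

theorem GoodOn.comap {V W : Type} [DecidableEq V] [DecidableEq W] (g : V → W) (B : Finset V)
    (hinj : Set.InjOn g B) (h : GoodOn (B.image g)) : GoodOn B := by
  obtain ⟨Ω, iΩ, T, hne, hreg, hF⟩ := h
  refine ⟨Ω, iΩ, fun ω x y => T ω (g x) (g y), hne, fun ω => ⟨?_, ?_⟩, ?_⟩
  · intro x hx y hy hxy
    exact (hreg ω).anti _ (mem_image_of_mem g hx) _ (mem_image_of_mem g hy)
      (fun he => hxy (hinj hx hy he))
  · intro x hx
    have key : ∀ P : W → Prop, ∀ [DecidablePred P],
        ((B.erase x).filter (fun y => P (g y))).card =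
          (((B.image g).erase (g x)).filter P).card := by
      intro P _
      apply card_bij (fun y _ => g y)
      · intro y hy
        simp only [mem_filter, mem_erase] at hy ⊢
        exact ⟨⟨fun he => hy.1.1 (hinj hy.1.2 hx he), mem_image_of_mem g hy.1.2⟩, hy.2⟩
      · intro a ha b hb hab
        simp only [mem_filter, mem_erase] at ha hb
        exact hinj ha.1.2 hb.1.2 hab
      · intro b hb
        simp only [mem_filter, mem_erase, mem_image] at hb
        obtain ⟨⟨hne, y, hy, rfl⟩, hP⟩ := hb
        refine ⟨y, ?_, rfl⟩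
        simp only [mem_filter, mem_erase]
        exact ⟨⟨fun he => hne (by rw [he]), hy⟩, hP⟩
    have h1 := key (fun y => T ω (g x) y = true)
    have h2 := key (fun y => T ω y (g x) = true)
    have h3 := (hreg ω).reg (g x) (mem_image_of_mem g hx)
    simp only at h1 h2 ⊢
    rw [h1, h2, h3]
  · intro F hlin hFB
    have hinjF : Set.InjOn (Prod.map g g) (F : Set (V × V)) := by
      intro p hp q hq hpq
      have h1 := congrArg Prod.fst hpq
      have h2 := congrArg Prod.snd hpq
      ext
      · exact hinj (hFB p hp).1 (hFB q hq).1 h1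
      · exact hinj (hFB p hp).2 (hFB q hq).2 h2
    have hlin' : IsLin (F.image (Prod.map g g)) := by
      refine ⟨?_, ?_, ?_⟩
      · intro p hp h2
        obtain ⟨a, ha, rfl⟩ := mem_image.1 hp
        obtain ⟨b, hb, hb'⟩ := mem_image.1 h2
        have h1 := congrArg Prod.fst hb'
        have h2 := congrArg Prod.snd hb'
        have e1 : b.1 = a.2 := hinj (hFB b hb).1 (hFB a ha).2 h1
        have e2 : b.2 = a.1 := hinj (hFB b hb).2 (hFB a ha).1 h2
        apply hlin.no2 a ha
        rw [← e1, ← e2]
        exact hb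
      · intro p hp q hq hpq
        obtain ⟨a, ha, rfl⟩ := mem_image.1 hp
        obtain ⟨b, hb, rfl⟩ := mem_image.1 hq
        rw [hlin.outu a ha b hb (hinj (hFB a ha).1 (hFB b hb).1 hpq)]
      · intro p hp q hq hpq
        obtain ⟨a, ha, rfl⟩ := mem_image.1 hp
        obtain ⟨b, hb, rfl⟩ := mem_image.1 hq
        rw [hlin.inu a ha b hb (hinj (hFB a ha).2 (hFB b hb).2 hpq)]
    have := hF (F.image (Prod.map g g)) hlin' (by
      intro p hp
      obtain ⟨a, ha, rfl⟩ := mem_image.1 hp
      exact ⟨mem_image_of_mem g (hFB a ha).1, mem_image_of_mem g (hFB a ha).2⟩)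
    rw [card_image_of_injOn hinjF] at this
    convert this using 4 with ω
    rw [forall_mem_image]
    rfl

/-- `G n`: the property holds on every `n`-element vertex set. -/
def G (n : ℕ) : Prop :=
  ∀ (V : Type) [DecidableEq V] (B : Finset V), B.card = n → GoodOn B

theorem G_of_goodOn {V : Type} [DecidableEq V] (B : Finset V) (hB : B.Nonempty)
    (h : GoodOn B) : G B.card := by
  intro W _ C hC
  obtain ⟨b0, hb0⟩ := hB
  let e : C ≃ B := Finset.equivOfCardEq hC
  let g : W → V := fun x => if hx : x ∈ C then (e ⟨x, hx⟩ : V) else b0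
  have hinj : Set.InjOn g C := by
    intro x hx y hy hxy
    have hx' : x ∈ C := hx
    have hy' : y ∈ C := hy
    simp only [g, dif_pos hx', dif_pos hy'] at hxy
    have := e.injective (Subtype.ext hxy)
    exact congrArg Subtype.val this
  have himg : C.image g = B := by
    apply eq_of_subset_of_card_le
    · intro y hy
      obtain ⟨x, hx, rfl⟩ := mem_image.1 hy
      simp only [g, dif_pos hx]
      exact (e ⟨x, hx⟩).2
    · rw [card_image_of_injOn hinj, hC]
  exact GoodOn.comap g C hinj (himg ▸ h)

theorem goodOn_trivial {V : Type} [DecidableEq V] (B : Finset V) (hB : B.card ≤ 1) :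
    GoodOn B := by
  refine ⟨Unit, inferInstance, fun _ _ _ => true, ⟨()⟩, fun _ => ⟨?_, ?_⟩, ?_⟩
  · intro x hx y hy hxy
    exact absurd (card_le_one.1 hB x hx y hy) hxy
  · intro x _
    rfl
  · intro F _ _
    have : 0 < 2 ^ F.card := by positivity
    simp
    omega

theorem G_one : G 1 := fun _ _ B hB => goodOn_trivial B hB.le

/-- Reduction of the check over arc sets to a check over functions. -/
theorem goodOn_univ_of_fun {V Ω : Type} [DecidableEq V] [Fintype V] [Fintype Ω] [Nonempty Ω]
    (T : Ω → V → V → Bool) (hreg : ∀ ω, IsRegOn univ (T ω))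
    (hf : ∀ f : V → V, (∀ x y, f x ≠ x → f y ≠ y → f x = f y → x = y) →
      (∀ x, f x ≠ x → f (f x) ≠ x) →
      Fintype.card Ω ≤ 2 ^ (univ.filter (fun x => f x ≠ x)).card *
        (univ.filter (fun ω => ∀ x, f x ≠ x → T ω x (f x) = true)).card) :
    GoodOn (univ : Finset V) := by
  classical
  refine ⟨Ω, inferInstance, T, inferInstance, hreg, ?_⟩
  intro F hlin _
  let f : V → V := fun x => if h : ∃ y, (x, y) ∈ F then h.choose else x
  have hf1 : ∀ x, f x ≠ x → (x, f x) ∈ F := by
    intro x hx
    by_cases h : ∃ y, (x, y) ∈ F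
    · simp only [f, dif_pos h]
      exact h.choose_spec
    · simp only [f, dif_neg h] at hx
      exact absurd rfl hx
  have hf2 : ∀ p ∈ F, f p.1 = p.2 := by
    intro p hp
    have h : ∃ y, (p.1, y) ∈ F := ⟨p.2, hp⟩
    simp only [f, dif_pos h]
    have := hlin.outu _ h.choose_spec p hp rfl
    exact congrArg Prod.snd this
  have hcard : (univ.filter (fun x => f x ≠ x)).card = F.card := by
    apply card_bij (fun x _ => (x, f x))
    · intro x hx
      exact hf1 x (mem_filter.1 hx).2
    · intro a _ b _ hab
      exact congrArg Prod.fst hab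
    · intro p hp
      refine ⟨p.1, ?_, ?_⟩
      · simp only [mem_filter, mem_univ, true_and]
        rw [hf2 p hp]
        exact (hlin.ne hp).symm
      · rw [hf2 p hp]
  have := hf f ?_ ?_
  · rw [hcard] at this
    convert this using 4 with ω
    constructor
    · intro h x hx
      exact h _ (hf1 x hx)
    · intro h p hp
      have := h p.1 (by rw [hf2 p hp]; exact (hlin.ne hp).symm)
      rwa [hf2 p hp] at this
  · intro x y hx hy hxy
    have := hlin.inu _ (hf1 x hx) _ (hf1 y hy) hxy
    exact congrArg Prod.fst this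
  · intro x hx h2
    have hx' : f (f x) ≠ f x := by rw [h2]; exact hx.symm
    have h3 := hf1 _ hx'
    rw [h2] at h3
    exact hlin.no2 _ (hf1 x hx) h3

/-- The two cyclic triangles. -/
def T3 (b : Bool) (x y : Fin 3) : Bool := if b then decide (y = x + 1) else decide (y = x + 2)

theorem G_three : G 3 := by
  have h : GoodOn (univ : Finset (Fin 3)) := by
    apply goodOn_univ_of_fun T3
    · intro ω
      constructor
      · revert ω; decide
      · revert ω; decide
    · decide +kernel
  simpa using G_of_goodOn _ univ_nonempty h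

/-- The 24 regular tournaments on five points, as bit masks. -/
def tbl5 : List ℕ := [3727750, 3760300, 3818890, 3819820, 5810950, 5842570, 5843500, 5902090,
  6858130, 6859060, 6890680, 6950200, 9560710, 9620230, 9651850, 9652780, 10608820, 10667410,
  10668340, 10699960, 12691090, 12692020, 12750610, 12783160]

/-- The regular tournaments on five points. -/
def T5 (ω : Fin 24) (x y : Fin 5) : Bool := Nat.testBit (tbl5.getD ω.val 0) (5 * x.val + y.val)

theorem T5_check : ∀ a b c d e : Fin 5,
    (∀ x y, ![a, b, c, d, e] x ≠ x → ![a, b, c, d, e] y ≠ y →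
      ![a, b, c, d, e] x = ![a, b, c, d, e] y → x = y) →
    (∀ x, ![a, b, c, d, e] x ≠ x → ![a, b, c, d, e] (![a, b, c, d, e] x) ≠ x) →
      Fintype.card (Fin 24) ≤ 2 ^ (univ.filter (fun x => ![a, b, c, d, e] x ≠ x)).card *
        (univ.filter (fun ω => ∀ x, ![a, b, c, d, e] x ≠ x →
          T5 ω x (![a, b, c, d, e] x) = true)).card := by
  decide +kernel

theorem G_five : G 5 := by
  have h : GoodOn (univ : Finset (Fin 5)) := by
    apply goodOn_univ_of_fun T5
    · intro ω
      constructor
      · revert ω; decide +kernel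
      · revert ω; decide +kernel
    · intro f
      have : f = ![f 0, f 1, f 2, f 3, f 4] := by
        funext i; fin_cases i <;> rfl
      intro h1 h2
      have h3 := T5_check (f 0) (f 1) (f 2) (f 3) (f 4) (by rw [← this]; exact h1)
        (by rw [← this]; exact h2)
      rw [← this] at h3
      convert h3
  simpa using G_of_goodOn _ univ_nonempty h

end Pool.Agent.P.MP_012ca0_co
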