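import Pool.Agent.P.MP_012ca0_co.PBD

set_option autoImplicit false

namespace Pool.Agent.P.MP_012ca0_co

open Finset

section Triple

variable {Q U : Type}

/-- Same level (or one of the two is the point at infinity). -/
def S1 : (Q × ZMod 3) ⊕ U → (Q × ZMod 3) ⊕ U → Prop
  | Sum.inl a, Sum.inl b => a.2 = b.2
  | _, _ => True

instance instDecS1 : DecidableRel (S1 (Q := Q) (U := U)) := fun x y =>
  match x, y with
  | Sum.inl a, Sum.inl b => inferInstanceAs (Decidable (a.2 = b.2))
  | Sum.inl _, Sum.inr _ => isTrue trivial
  | Sum.inr _, Sum.inl _ => isTrue trivial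
  | Sum.inr _, Sum.inr _ => isTrue trivial

/-- The level of a pair. -/
def lev1 : (Q × ZMod 3) ⊕ U → (Q × ZMod 3) ⊕ U → ZMod 3
  | Sum.inl a, _ => a.2
  | Sum.inr _, Sum.inl b => b.2
  | Sum.inr _, Sum.inr _ => 0

/-- The big block of level `i`. -/
def level1 [Fintype Q] [Fintype U] (i : ZMod 3) : Finset ((Q × ZMod 3) ⊕ U) :=
  (univ.map ⟨fun q : Q => (q, i), fun _ _ h => congrArg Prod.fst h⟩).disjSum univ

theorem mem_level1_inl [Fintype Q] [Fintype U] (i : ZMod 3) (a : Q × ZMod 3) :
    (Sum.inl a : (Q × ZMod 3) ⊕ U) ∈ level1 i ↔ a.2 = i := by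
  obtain ⟨a, j⟩ := a
  simp only [level1, inl_mem_disjSum, mem_map, mem_univ, true_and, Function.Embedding.coeFn_mk]
  constructor
  · rintro ⟨q, hq⟩
    exact (congrArg Prod.snd hq).symm
  · rintro rfl
    exact ⟨a, rfl⟩

theorem mem_level1_inr [Fintype Q] [Fintype U] (i : ZMod 3) (u : U) :
    (Sum.inr u : (Q × ZMod 3) ⊕ U) ∈ level1 i := by
  simp [level1]

theorem card_level1 [Fintype Q] [Fintype U] (i : ZMod 3) :
    (level1 (Q := Q) (U := U) i).card = Fintype.card Q + Fintype.card U := by
  simp [level1]

/-- The third point of a transversal triple. -/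
def third1 [AddCommGroup Q] : (Q × ZMod 3) ⊕ U → (Q × ZMod 3) ⊕ U → (Q × ZMod 3) ⊕ U
  | Sum.inl a, Sum.inl b => Sum.inl (-a - b)
  | x, _ => x

theorem good_triple [Fintype Q] [DecidableEq Q] [AddCommGroup Q] [Fintype U] [DecidableEq U]
    [Subsingleton U] (h : G (Fintype.card Q + Fintype.card U)) :
    GoodOn (univ : Finset ((Q × ZMod 3) ⊕ U)) := by
  have z3 : ∀ i j : ZMod 3, i ≠ j → i ≠ -i - j := by decide
  apply good_of_third S1 (fun x y => level1 (lev1 x y)) third1
  · rintro (a | a) (b | b) hxy hS
    · simp only [S1] at hS
      simp [mem_level1_inl, lev1, hS]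
    · simp [mem_level1_inl, mem_level1_inr, lev1]
    · simp [mem_level1_inl, mem_level1_inr, lev1]
    · simp [mem_level1_inr]
  · rintro x y _ _ (u | u) hu (v | v) hv huv
    · rw [mem_level1_inl] at hu hv
      exact ⟨hu.trans hv.symm, by simp only [lev1] at hu ⊢; rw [hu]⟩
    · rw [mem_level1_inl] at hu
      exact ⟨trivial, by simp only [lev1] at hu ⊢; rw [hu]⟩
    · rw [mem_level1_inl] at hv
      exact ⟨trivial, by simp only [lev1] at hv ⊢; rw [hv]⟩
    · exact absurd (congrArg Sum.inr (Subsingleton.elim u v)) huv
  · intro x y _ _
    exact h _ _ (card_level1 _)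
  · rintro (a | a) (b | b) hxy hS
    · simp only [S1] at hS
      have := z3 _ _ hS
      refine ⟨?_, ?_, ?_, ?_⟩
      · simp only [third1]
        intro e
        have e2 := congrArg Prod.snd (Sum.inl.inj e)
        exact this e2.symm
      · simp only [third1]
        congr 1
        abel
      · simp only [third1, S1]
        exact this
      · simp only [third1]
        congr 1
        abel
    · exact absurd trivial hS
    · exact absurd trivial hS
    · exact absurd trivial hS

end Triple

section Five

variable {Q : Type}

/-- Membership in the block of size five. -/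
def inK [Zero Q] : (Q × ZMod 3) ⊕ Bool → Prop
  | Sum.inl a => a.1 = 0
  | Sum.inr _ => True

instance instDecInK [Zero Q] [DecidableEq Q] : DecidablePred (inK (Q := Q)) := fun x =>
  match x with
  | Sum.inl a => inferInstanceAs (Decidable (a.1 = 0))
  | Sum.inr _ => isTrue trivial

/-- The third point in the design with one block of size five. -/
def third2 [CommRing Q] [DecidableEq Q] (c : Q) (s : Q → Bool) :
    (Q × ZMod 3) ⊕ Bool → (Q × ZMod 3) ⊕ Bool → (Q × ZMod 3) ⊕ Bool
  | Sum.inl a, Sum.inl b =>
      if a.2 = b.2 then Sum.inl (-(c * (a.1 + b.1)), a.2 + 1)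
      else if b.2 = a.2 + 1 then
        (if b.1 = -a.1 then Sum.inr (s a.1) else Sum.inl (-(2 * b.1) - a.1, a.2))
      else (if a.1 = -b.1 then Sum.inr (s b.1) else Sum.inl (-(2 * a.1) - b.1, b.2))
  | Sum.inl a, Sum.inr j => if s a.1 = j then Sum.inl (-a.1, a.2 + 1) else Sum.inl (-a.1, a.2 - 1)
  | Sum.inr j, Sum.inl a => if s a.1 = j then Sum.inl (-a.1, a.2 + 1) else Sum.inl (-a.1, a.2 - 1)
  | Sum.inr j, Sum.inr _ => Sum.inr j

theorem card_K [Fintype Q] [DecidableEq Q] [Zero Q] :
    (univ.filter (inK (Q := Q))).card = 5 := by
  have : univ.filter (inK (Q := Q)) =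
      (univ.map ⟨fun i : ZMod 3 => ((0 : Q), i), fun _ _ h => congrArg Prod.snd h⟩).disjSum univ := by
    ext x
    rcases x with ⟨a, i⟩ | u
    · simp only [inK, inl_mem_disjSum, mem_map, mem_univ, true_and, mem_filter,
        Function.Embedding.coeFn_mk]
      constructor
      · rintro rfl
        exact ⟨i, rfl⟩
      · rintro ⟨q, hq⟩
        exact (congrArg Prod.fst hq).symm
    · simp [inK]
  rw [this]
  simp

theorem good_five [Fintype Q] [DecidableEq Q] [CommRing Q] (c : Q) (hc : 2 * c = 1)
    (s : Q → Bool) (hs : ∀ x, x ≠ 0 → s (-x) = !s x) :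
    GoodOn (univ : Finset ((Q × ZMod 3) ⊕ Bool)) := by
  have half : ∀ x y : Q, 2 * x = 2 * y → x = y := by
    intro x y h
    linear_combination c * h - (x - y) * hc
  have z1 : ∀ i : ZMod 3, i ≠ i + 1 := by decide
  have z2 : ∀ i : ZMod 3, i ≠ i - 1 := by decide
  have z3 : ∀ i : ZMod 3, i - 1 ≠ i + 1 := by decide
  have z4 : ∀ i : ZMod 3, i ≠ i + 1 + 1 := by decide
  have z5 : ∀ i j : ZMod 3, i ≠ j → j ≠ i + 1 → i = j + 1 := by decide
  apply good_of_third (fun x y => inK x ∧ inK y) (fun _ _ => univ.filter inK) (third2 c s)
  · intro x y _ h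
    simpa using h
  · intro x y _ _ u hu v hv _
    simp only [mem_filter, mem_univ, true_and] at hu hv
    exact ⟨⟨hu, hv⟩, rfl⟩
  · intro x y _ _
    exact G_five _ _ card_K
  · rintro (⟨a, i⟩ | a) (⟨b, j⟩ | b) hxy hS
    · simp only [inK] at hS
      by_cases hij : i = j
      · subst hij
        have hab : a ≠ b := fun e => hxy (by rw [e])
        have h1 : -(c * (a + b)) ≠ -a := by
          intro e
          apply hab
          linear_combination (2 : Q) * e + (a + b) * hc
        refine ⟨?_, ?_, ?_, ?_⟩
        · simp [third2, (z1 i).symm]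
        · simp [third2, add_comm]
        · simp only [third2, if_true, inK]
          rintro ⟨e1, e2⟩
          apply h1
          rw [e2, e1, neg_zero]
        · simp only [third2, if_true, if_neg (z1 i), if_neg h1]
          congr 2
          linear_combination (a + b) * hc
      · by_cases hji : j = i + 1
        · subst hji
          by_cases hb : b = -a
          · subst hb
            have ha : a ≠ 0 := fun e => hS ⟨e, by rw [e, neg_zero]⟩
            refine ⟨?_, ?_, ?_, ?_⟩
            · simp [third2, z1 i]
            · simp [third2, z1 i, (z1 i).symm, z4 i]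
            · simp [third2, z1 i, inK, ha]
            · simp [third2, z1 i]
          · have h1 : -(2 * b) - a ≠ a := by
              intro e
              apply hb
              apply half
              linear_combination -e
            refine ⟨?_, ?_, ?_, ?_⟩
            · simp [third2, z1 i, hb, h1]
            · simp [third2, z1 i, (z1 i).symm, z4 i, hb]
            · simp only [third2, if_neg (z1 i), if_true, if_neg hb, inK]
              rintro ⟨e1, e2⟩
              apply h1
              rw [e2, e1]
            · simp only [third2, if_neg (z1 i), if_true, if_neg hb]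
              congr 2
              linear_combination b * hc
        · have hi := z5 i j hij hji
          subst hi
          by_cases ha : a = -b
          · subst ha
            have hb : b ≠ 0 := fun e => hS ⟨by rw [e, neg_zero], e⟩
            have hsb := hs b hb
            refine ⟨?_, ?_, ?_, ?_⟩
            · simp [third2, (z1 j).symm, z4 j]
            · simp [third2, z1 j, (z1 j).symm, z4 j]
            · simp [third2, (z1 j).symm, z4 j, inK, hb]
            · simp [third2, (z1 j).symm, z4 j, hsb]
          · have h1 : a ≠ -(-(2 * a) - b) := by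
              intro e
              apply ha
              linear_combination -e
            refine ⟨?_, ?_, ?_, ?_⟩
            · simp [third2, z1 j, (z1 j).symm, z4 j, ha]
            · simp [third2, z1 j, (z1 j).symm, z4 j, ha]
            · simp only [third2, if_neg (z1 j).symm, if_neg (z4 j), if_neg ha, inK]
              rintro ⟨e1, e2⟩
              apply h1
              rw [e2, e1, neg_zero]
            · simp only [third2, if_neg (z1 j).symm, if_neg (z4 j), if_neg ha, if_neg h1]
              congr 2
              ring
    · have ha : a ≠ 0 := fun e => hS ⟨e, trivial⟩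
      have hsa := hs a ha
      by_cases hb : s a = b
      · subst hb
        refine ⟨?_, ?_, ?_, ?_⟩
        · simp [third2, (z1 i).symm]
        · simp [third2]
        · simp [third2, inK, ha]
        · simp [third2, z1 i]
      · refine ⟨?_, ?_, ?_, ?_⟩
        · simp [third2, hb, (z2 i).symm]
        · simp [third2]
        · simp [third2, hb, inK, ha]
        · simp only [third2, if_neg hb, if_neg (z2 i), if_neg (z3 i), neg_neg, if_true, hsa]
          congr 1
          revert hb
          cases s a <;> cases b <;> simp
    · have hb : b ≠ 0 := fun e => hS ⟨trivial, e⟩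
      have hsb := hs b hb
      by_cases ha : s b = a
      · subst ha
        refine ⟨?_, ?_, ?_, ?_⟩
        · simp [third2]
        · simp [third2]
        · simp [third2, inK, hb]
        · simp [third2, hsb]
      · have ha' : s (-b) = a := by
          rw [hsb]
          revert ha
          cases s b <;> cases a <;> simp
        refine ⟨?_, ?_, ?_, ?_⟩
        · simp [third2, ha]
        · simp [third2]
        · simp [third2, ha, inK, hb]
        · simp [third2, ha, ha']
    · exact absurd ⟨trivial, trivial⟩ hS

end Five

theorem G_odd : ∀ n : ℕ, Odd n → G n := by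
  intro n
  induction n using Nat.strong_induction_on with
  | _ n ih =>
    intro hn
    obtain ⟨k, hk⟩ := hn
    by_cases h1 : n = 1
    · rw [h1]; exact G_one
    have h3 : n % 3 = 0 ∨ n % 3 = 1 ∨ n % 3 = 2 := by omega
    rcases h3 with h3 | h3 | h3
    · have : NeZero (n / 3) := ⟨by omega⟩
      have hg := good_triple (Q := ZMod (n / 3)) (U := Empty)
        (ih _ (by simp; omega) (by simp; exact ⟨(n / 3) / 2, by omega⟩))
      have := G_of_goodOn _ univ_nonempty hg
      simp only [card_univ, Fintype.card_sum, Fintype.card_prod, ZMod.card,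
        Fintype.card_empty] at this
      convert this using 1
      omega
    · have : NeZero (n / 3) := ⟨by omega⟩
      have hg := good_triple (Q := ZMod (n / 3)) (U := Unit)
        (ih _ (by simp; omega) (by simp; exact ⟨(n / 3) / 2, by omega⟩))
      have := G_of_goodOn _ univ_nonempty hg
      simp only [card_univ, Fintype.card_sum, Fintype.card_prod, ZMod.card,
        Fintype.card_unit] at this
      convert this using 1
      omega
    · have : NeZero (n / 3) := ⟨by omega⟩
      have hm : n / 3 = 2 * (n / 6) + 1 := by omega
      have hc : (2 : ZMod (n / 3)) * ((n / 6 + 1 : ℕ) : ZMod (n / 3)) = 1 := by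
        have e : ((2 * (n / 6 + 1) : ℕ) : ZMod (n / 3)) = ((n / 3 + 1 : ℕ) : ZMod (n / 3)) := by
          congr 1
          omega
        push_cast at e ⊢
        rw [e]
        simp
      have hg := good_five (Q := ZMod (n / 3)) _ hc (fun x => decide (x.val < (-x).val)) (by
        intro x hx
        have hne : x.val ≠ (-x).val := by
          intro e
          have e2 : x = -x := ZMod.val_injective _ e
          apply hx
          linear_combination (((n / 6 + 1 : ℕ) : ZMod (n / 3))) * e2 - x * hc
        simp only [neg_neg]
        by_cases hlt : x.val < (-x).val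
        · have : ¬ (-x).val < x.val := by omega
          simp [hlt, this]
        · have : (-x).val < x.val := by omega
          simp [hlt, this])
      have := G_of_goodOn _ univ_nonempty hg
      simp only [card_univ, Fintype.card_sum, Fintype.card_prod, ZMod.card,
        Fintype.card_bool] at this
      convert this using 1
      omega

end Pool.Agent.P.MP_012ca0_co
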