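import Pool.Agent.P.MP_012ca0_co.Designs

set_option autoImplicit false

namespace Pool.Agent.P.MP_012ca0_co

open Finset

theorem main (n : ℕ) (hn : Odd n) (h3 : 3 ≤ n) :
    ∃ adj : Fin n → Fin n → Prop,
      (∀ v, ¬ adj v v) ∧
      (∀ v w, v ≠ w → (adj v w ↔ ¬ adj w v)) ∧
      (∀ v, {w : Fin n | adj v w}.ncard = (n - 1) / 2) ∧
      ((Nat.factorial (n - 1) : ℝ) / (2 : ℝ) ^ n ≤
        (({c : Equiv.Perm (Fin n) |
            c.IsCycle ∧ c.support = Finset.univ ∧ ∀ v, adj v (c v)}.ncard : ℕ) : ℝ)) := by
  classical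
  obtain ⟨Ω, iΩ, T, hne, hreg, hF⟩ := G_odd n hn (Fin n) univ (by simp)
  let C : Finset (Equiv.Perm (Fin n)) := univ.filter (fun g => g.cycleType = {n})
  have hC : C.card = (n - 1).factorial := by
    have := Equiv.Perm.card_of_cycleType_singleton (α := Fin n) (n := n) (by omega) (by simp)
    simpa using this
  have hCp : ∀ c ∈ C, c.IsCycle ∧ c.support = univ := by
    intro c hc
    have hc' : c.cycleType = {n} := (mem_filter.1 hc).2
    refine ⟨Equiv.Perm.card_cycleType_eq_one.1 (by rw [hc']; simp), ?_⟩
    apply eq_univ_of_card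
    rw [← Equiv.Perm.sum_cycleType, hc']
    simp
  -- each Hamilton cycle survives with probability at least 2 ^ (-n)
  have hone : ∀ c ∈ C, Fintype.card Ω ≤
      2 ^ n * (univ.filter (fun ω => ∀ v, T ω v (c v) = true)).card := by
    intro c hc
    obtain ⟨hcyc, hsup⟩ := hCp c hc
    have hmove : ∀ v, c v ≠ v := fun v => Equiv.Perm.mem_support.1 (hsup ▸ mem_univ v)
    have hinj : Function.Injective (fun v => (v, c v)) := fun a b h => congrArg Prod.fst h
    have hlin : IsLin (univ.image (fun v => (v, c v))) := by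
      refine ⟨?_, ?_, ?_⟩
      · intro p hp h2
        obtain ⟨a, _, rfl⟩ := mem_image.1 hp
        obtain ⟨b, _, hb⟩ := mem_image.1 h2
        have e1 : b = c a := congrArg Prod.fst hb
        have e2 : c b = a := congrArg Prod.snd hb
        have e3 : (c ^ 2) a = a := by
          rw [pow_two, Equiv.Perm.mul_apply, ← e1, e2]
        have e4 : c ^ 2 = 1 := (hcyc.pow_eq_one_iff' (hmove a)).2 e3
        have e5 := orderOf_dvd_of_pow_eq_one e4
        rw [hcyc.orderOf, hsup] at e5
        have := Nat.le_of_dvd (by norm_num) e5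
        simp at this
        omega
      · intro p hp q hq hpq
        obtain ⟨a, _, rfl⟩ := mem_image.1 hp
        obtain ⟨b, _, rfl⟩ := mem_image.1 hq
        have : a = b := hpq
        rw [this]
      · intro p hp q hq hpq
        obtain ⟨a, _, rfl⟩ := mem_image.1 hp
        obtain ⟨b, _, rfl⟩ := mem_image.1 hq
        have : a = b := c.injective hpq
        rw [this]
    have := hF _ hlin (fun p _ => ⟨mem_univ _, mem_univ _⟩)
    rw [card_image_of_injective _ hinj] at this
    simp only [card_univ, Fintype.card_fin] at this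
    convert this using 4 with ω
    rw [forall_mem_image]
    simp
  -- double counting
  have hdc : ∑ ω : Ω, (C.filter (fun c => ∀ v, T ω v (c v) = true)).card =
      ∑ c ∈ C, (univ.filter (fun ω => ∀ v, T ω v (c v) = true)).card := by
    simp only [card_filter]
    rw [sum_comm]
  have hsum : ∑ _ω : Ω, (n - 1).factorial ≤
      ∑ ω : Ω, 2 ^ n * (C.filter (fun c => ∀ v, T ω v (c v) = true)).card := by
    rw [← mul_sum, hdc, mul_sum]
    calc ∑ _ω : Ω, (n - 1).factorial = ∑ _c ∈ C, Fintype.card Ω := by
          simp [hC, mul_comm]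
      _ ≤ _ := sum_le_sum hone
  obtain ⟨ω, _, hω⟩ := exists_le_of_sum_le univ_nonempty hsum
  refine ⟨fun v w => v ≠ w ∧ T ω v w = true, fun v h => h.1 rfl, ?_, ?_, ?_⟩
  · intro v w hvw
    have := (hreg ω).anti v (mem_univ _) w (mem_univ _) hvw
    simp only [this, hvw, hvw.symm, ne_eq, not_false_eq_true, true_and]
    cases T ω w v <;> simp
  · intro v
    have e1 : {w : Fin n | v ≠ w ∧ T ω v w = true} =
        ((univ.erase v).filter (fun y => T ω v y = true) : Finset (Fin n)) := by
      ext w
      simp only [Set.mem_ofPred_eq, coe_filter, mem_erase, mem_univ, and_true]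
      exact and_congr_left' ne_comm
    rw [e1, Set.ncard_coe_finset]
    have r1 := (hreg ω).reg v (mem_univ _)
    have r2 := card_filter_add_card_filter_not (s := univ.erase v) (fun y => T ω v y = true)
    have r3 : (univ.erase v).filter (fun y => ¬ T ω v y = true) =
        (univ.erase v).filter (fun y => T ω y v = true) := by
      apply filter_congr
      intro y hy
      have := (hreg ω).anti v (mem_univ _) y (mem_univ _) (mem_erase.1 hy).1.symm
      rw [this]
      cases T ω y v <;> simp
    rw [r3, ← r1, card_erase_of_mem (mem_univ _)] at r2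
    simp only [card_univ, Fintype.card_fin] at r2
    omega
  · have e1 : (C.filter (fun c => ∀ v, T ω v (c v) = true) : Set (Equiv.Perm (Fin n))) ⊆
        {c : Equiv.Perm (Fin n) | c.IsCycle ∧ c.support = Finset.univ ∧
          ∀ v, v ≠ c v ∧ T ω v (c v) = true} := by
      intro c hc
      have hc' := mem_filter.1 (mem_coe.1 hc)
      obtain ⟨hcyc, hsup⟩ := hCp c hc'.1
      refine ⟨hcyc, hsup, fun v => ⟨?_, hc'.2 v⟩⟩
      exact (Equiv.Perm.mem_support.1 (hsup ▸ mem_univ v)).symm
    have e2 := Set.ncard_le_ncard e1 (Set.toFinite _)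
    rw [Set.ncard_coe_finset] at e2
    rw [div_le_iff₀ (by positivity)]
    have e3 := hω.trans (Nat.mul_le_mul_left _ e2)
    rw [mul_comm] at e3
    exact_mod_cast e3

end Pool.Agent.P.MP_012ca0_co
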