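import Pool.Agent.P.MP_012ca0_co.Basic

set_option autoImplicit false

namespace Pool.Agent.P.MP_012ca0_co

open Finset

/-- The property passes from the blocks of a pairwise balanced design to the whole point set. -/
theorem good_of_pbd {V : Type} [Fintype V] [DecidableEq V] (blk : V → V → Finset V)
    (h1 : ∀ x y, x ≠ y → x ∈ blk x y ∧ y ∈ blk x y)
    (h2 : ∀ x y, x ≠ y → ∀ u ∈ blk x y, ∀ v ∈ blk x y, u ≠ v → blk u v = blk x y)
    (h3 : ∀ x y, x ≠ y → GoodOn (blk x y)) : GoodOn (univ : Finset V) := by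
  classical
  have hsymm : ∀ x y, x ≠ y → blk y x = blk x y := fun x y hxy =>
    h2 x y hxy y (h1 x y hxy).2 x (h1 x y hxy).1 hxy.symm
  -- every finset gets a family; for a non-block it is a dummy
  have hall : ∀ b : Finset V, ∃ (Ω : Type) (_ : Fintype Ω) (T : Ω → V → V → Bool), Nonempty Ω ∧
      ((∃ x y, x ≠ y ∧ blk x y = b) → ∀ ω, IsRegOn b (T ω)) ∧
      ∀ F : Finset (V × V), IsLin F → (∀ p ∈ F, blk p.1 p.2 = b) →
        Fintype.card Ω ≤ 2 ^ F.card *
          (univ.filter (fun ω => ∀ p ∈ F, T ω p.1 p.2 = true)).card := by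
    intro b
    by_cases hb : ∃ x y, x ≠ y ∧ blk x y = b
    · obtain ⟨x, y, hxy, rfl⟩ := hb
      obtain ⟨Ω, iΩ, T, hne, hreg, hF⟩ := h3 x y hxy
      refine ⟨Ω, iΩ, T, hne, fun _ => hreg, fun F hlin hFb => ?_⟩
      have := hF F hlin (by
        intro p hp
        rw [← hFb p hp]
        exact h1 _ _ (hlin.ne hp))
      convert this
    · refine ⟨Unit, inferInstance, fun _ _ _ => true, ⟨()⟩, fun h => absurd h hb, ?_⟩
      intro F _ _
      have : 0 < 2 ^ F.card := by positivity
      simp
      omega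
  choose Ω iΩ T hne hreg hF using hall
  refine ⟨∀ b, Ω b, inferInstance, fun ω x y => T (blk x y) (ω (blk x y)) x y,
    inferInstance, fun ω => ⟨?_, ?_⟩, ?_⟩
  · intro x _ y _ hxy
    have e := hsymm x y hxy
    have : ∀ b, b = blk x y → T b (ω b) y x = T (blk x y) (ω (blk x y)) y x := by
      rintro b rfl; rfl
    show T (blk x y) (ω (blk x y)) x y = !T (blk y x) (ω (blk y x)) y x
    rw [this _ e]
    exact (hreg _ ⟨x, y, hxy, rfl⟩ _).anti x (h1 x y hxy).1 y (h1 x y hxy).2 hxy
  · intro x _
    rw [card_eq_sum_card_fiberwise (f := fun y => blk x y) (t := univ) (fun _ _ => mem_univ _),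
      card_eq_sum_card_fiberwise (f := fun y => blk x y) (t := univ) (fun _ _ => mem_univ _)]
    apply sum_congr rfl
    intro b _
    by_cases hb : ∃ y, x ≠ y ∧ blk x y = b
    · obtain ⟨y0, hy0, rfl⟩ := hb
      have hr := (hreg _ ⟨x, y0, hy0, rfl⟩ (ω (blk x y0))).reg x (h1 x y0 hy0).1
      have hmem : ∀ y, (y ≠ x ∧ blk x y = blk x y0) ↔ (y ≠ x ∧ y ∈ blk x y0) := by
        intro y
        constructor
        · rintro ⟨hy, e⟩
          exact ⟨hy, e ▸ (h1 x y hy.symm).2⟩
        · rintro ⟨hy, e⟩
          exact ⟨hy, h2 x y0 hy0 x (h1 x y0 hy0).1 y e hy.symm⟩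
      have t1 : ∀ y b, b = blk x y0 → T b (ω b) x y = T (blk x y0) (ω (blk x y0)) x y := by
        rintro y b rfl; rfl
      have t2 : ∀ y b, b = blk x y0 → T b (ω b) y x = T (blk x y0) (ω (blk x y0)) y x := by
        rintro y b rfl; rfl
      convert hr using 2
      · ext y
        simp only [mem_filter, mem_erase, mem_univ, and_true]
        constructor
        · rintro ⟨⟨hy, ht⟩, e⟩
          exact ⟨(hmem y).1 ⟨hy, e⟩, by rw [← t1 y _ e]; exact ht⟩
        · rintro ⟨hy, ht⟩
          have e := ((hmem y).2 hy).2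
          exact ⟨⟨hy.1, by rw [t1 y _ e]; exact ht⟩, e⟩
      · ext y
        simp only [mem_filter, mem_erase, mem_univ, and_true]
        constructor
        · rintro ⟨⟨hy, ht⟩, e⟩
          have e' : blk y x = blk x y0 := (hsymm x y hy.symm).trans e
          exact ⟨(hmem y).1 ⟨hy, e⟩, by rw [← t2 y _ e']; exact ht⟩
        · rintro ⟨hy, ht⟩
          have e := ((hmem y).2 hy).2
          have e' : blk y x = blk x y0 := (hsymm x y hy.1.symm).trans e
          exact ⟨⟨hy.1, by rw [t2 y _ e']; exact ht⟩, e⟩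
    · have e1 : ∀ P : V → Prop, ∀ [DecidablePred P],
          ((univ.erase x).filter P).filter (fun y => blk x y = b) = ∅ := by
        intro P _
        rw [filter_eq_empty_iff]
        intro y hy e
        simp only [mem_filter, mem_erase] at hy
        exact hb ⟨y, hy.1.1.symm, e⟩
      rw [e1, e1]
  · intro F hlin _
    let Fb : Finset V → Finset (V × V) := fun b => F.filter (fun p => blk p.1 p.2 = b)
    have hcardF : F.card = ∑ b, (Fb b).card :=
      card_eq_sum_card_fiberwise (f := fun p : V × V => blk p.1 p.2) (t := univ) (fun _ _ => mem_univ _)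
    have hset : (univ.filter (fun ω : ∀ b, Ω b => ∀ p ∈ F,
        T (blk p.1 p.2) (ω (blk p.1 p.2)) p.1 p.2 = true)) =
        Fintype.piFinset (fun b => univ.filter (fun ω : Ω b => ∀ p ∈ Fb b, T b ω p.1 p.2 = true)) := by
      ext ω
      simp only [mem_filter, mem_univ, true_and, Fintype.mem_piFinset, Fb]
      constructor
      · rintro h b p ⟨hp, rfl⟩
        exact h p hp
      · intro h p hp
        exact h _ p ⟨hp, rfl⟩
    suffices hh : Fintype.card (∀ b, Ω b) ≤ 2 ^ F.card *
        (univ.filter (fun ω : ∀ b, Ω b => ∀ p ∈ F,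
        T (blk p.1 p.2) (ω (blk p.1 p.2)) p.1 p.2 = true)).card by convert hh
    rw [hset, Fintype.card_piFinset, hcardF, Fintype.card_pi, ← prod_pow_eq_pow_sum,
      ← prod_mul_distrib]
    apply prod_le_prod'
    intro b _
    exact hF b (Fb b) (hlin.subset (filter_subset _ _)) (fun p hp => (mem_filter.1 hp).2)

/-- A design given by big blocks and a third-point operation. -/
theorem good_of_third {V : Type} [Fintype V] [DecidableEq V] (S : V → V → Prop) [DecidableRel S]
    (big : V → V → Finset V) (third : V → V → V)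
    (hb1 : ∀ x y, x ≠ y → S x y → x ∈ big x y ∧ y ∈ big x y)
    (hb2 : ∀ x y, x ≠ y → S x y → ∀ u ∈ big x y, ∀ v ∈ big x y, u ≠ v →
      S u v ∧ big u v = big x y)
    (hb3 : ∀ x y, x ≠ y → S x y → GoodOn (big x y))
    (ht : ∀ x y, x ≠ y → ¬ S x y → third x y ≠ x ∧ third y x = third x y ∧
      ¬ S x (third x y) ∧ third x (third x y) = y) :
    GoodOn (univ : Finset V) := by
  have hS : ∀ x y, x ≠ y → ¬ S x y → ¬ S y x := by
    intro x y hxy h h'
    exact h (hb2 y x hxy.symm h' x (hb1 y x hxy.symm h').2 y (hb1 y x hxy.symm h').1 hxy).1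
  let blk : V → V → Finset V := fun x y => if S x y then big x y else {x, y, third x y}
  have k1 : ∀ x y, x ≠ y → ¬ S x y → blk y x = blk x y := by
    intro x y hxy h
    simp only [blk, if_neg h, if_neg (hS x y hxy h), (ht x y hxy h).2.1]
    rw [insert_comm]
  have k2 : ∀ x y, x ≠ y → ¬ S x y → blk x (third x y) = blk x y := by
    intro x y hxy h
    obtain ⟨_, _, a3, a4⟩ := ht x y hxy h
    simp only [blk, if_neg h, if_neg a3, a4]
    rw [pair_comm]
  apply good_of_pbd blk
  · intro x y hxy
    by_cases h : S x y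
    · simp only [blk, if_pos h]
      exact hb1 x y hxy h
    · simp [blk, if_neg h]
  · intro x y hxy u hu v hv huv
    by_cases h : S x y
    · simp only [blk, if_pos h] at hu hv ⊢
      obtain ⟨a, b⟩ := hb2 x y hxy h u hu v hv huv
      rw [if_pos a, b]
    · obtain ⟨a1, a2, a3, a4⟩ := ht x y hxy h
      have h' := hS x y hxy h
      obtain ⟨b1, b2, b3, b4⟩ := ht y x hxy.symm h'
      have c1 := k1 x y hxy h
      have c2 := k2 x y hxy h
      have c3 := k2 y x hxy.symm h'
      have c4 := k1 x (third x y) a1.symm a3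
      have c5 := k1 y (third y x) b1.symm b3
      rw [a2] at c3 c5
      simp only [blk, if_neg h, mem_insert, mem_singleton] at hu hv
      rcases hu with rfl | rfl | rfl <;> rcases hv with rfl | rfl | rfl
      · exact absurd rfl huv
      · rfl
      · exact c2
      · exact c1
      · exact absurd rfl huv
      · exact c3.trans c1
      · exact c4.trans c2
      · exact c5.trans (c3.trans c1)
      · exact absurd rfl huv
  · intro x y hxy
    by_cases h : S x y
    · simp only [blk, if_pos h]
      exact hb3 x y hxy h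
    · simp only [blk, if_neg h]
      obtain ⟨a1, a2, a3, a4⟩ := ht x y hxy h
      obtain ⟨b1, b2, b3, b4⟩ := ht y x hxy.symm (hS x y hxy h)
      apply G_three
      rw [a2] at b1
      exact card_eq_three.2 ⟨x, y, third x y, hxy, a1.symm, b1.symm, rfl⟩

end Pool.Agent.P.MP_012ca0_co
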